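import Mathlib
import Pool.Agent.N408.IB.Stm

/-! Project IB, leaf RAD: the radial function of the body of revolution. -/

set_option autoImplicit false

open Real Set

namespace N692.IB.RAD

open IB408

theorem h_arccos_cos (h : ℝ → ℝ) (he : ∀ ψ, h (-ψ) = h ψ) (hp : ∀ ψ, h (ψ + 2 * π) = h ψ)
    (y : ℝ) : h (arccos (cos y)) = h y := by
  have hper : Function.Periodic h (2 * π) := hp
  have h1 : cos (arccos (cos y)) = cos y := cos_arccos (neg_one_le_cos y) (cos_le_one y)
  obtain ⟨k, hk⟩ := Real.cos_eq_cos_iff.mp h1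
  have h2 : ∀ x, h (2 * k * π + x) = h x := by
    intro x
    have h3 := hper.int_mul k x
    have e : 2 * (k : ℝ) * π + x = x + (k : ℝ) * (2 * π) := by ring
    rw [e]
    exact h3
  rcases hk with hk | hk
  · conv_rhs => rw [hk]
    rw [h2]
  · conv_rhs => rw [hk]
    rw [sub_eq_add_neg, h2, he]

theorem ax_norm : ‖ax‖ = 1 := by
  unfold ax
  simp

theorem ax_inner : inner ℝ ax ax = (1 : ℝ) := by
  rw [real_inner_self_eq_norm_sq, ax_norm]
  norm_num

theorem inner_bounds (v : E4) (hv : ‖v‖ = 1) : -1 ≤ inner ℝ v ax ∧ inner ℝ v ax ≤ 1 := by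
  have h1 := abs_real_inner_le_norm v ax
  rw [hv, ax_norm, mul_one] at h1
  exact abs_le.mp h1

theorem cos_th (v : E4) (hv : ‖v‖ = 1) : cos (arccos (inner ℝ v ax)) = inner ℝ v ax :=
  cos_arccos (inner_bounds v hv).1 (inner_bounds v hv).2

theorem rem_norm (v : E4) (hv : ‖v‖ = 1) :
    ‖v - (inner ℝ v ax : ℝ) • ax‖ = sin (arccos (inner ℝ v ax)) := by
  have h1 : ‖v - (inner ℝ v ax : ℝ) • ax‖ ^ 2 = 1 - (inner ℝ v ax : ℝ) ^ 2 := by
    rw [norm_sub_sq_real, norm_smul, ax_norm, hv, real_inner_smul_right, mul_one, Real.norm_eq_abs,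
      sq_abs]
    ring
  rw [sin_arccos, ← h1, Real.sqrt_sq (norm_nonneg _)]

theorem rem_orth (v : E4) : inner ℝ (v - (inner ℝ v ax : ℝ) • ax) ax = (0 : ℝ) := by
  rw [inner_sub_left, real_inner_smul_left, ax_inner]
  ring

theorem inner_le (v u : E4) (hv : ‖v‖ = 1) (hu : ‖u‖ = 1) :
    inner ℝ v u ≤ cos (arccos (inner ℝ v ax) - arccos (inner ℝ u ax)) := by
  set v' := v - (inner ℝ v ax : ℝ) • ax with hv'
  set u' := u - (inner ℝ u ax : ℝ) • ax with hu'
  have e1 : (inner ℝ v u : ℝ) = inner ℝ v ax * inner ℝ u ax + inner ℝ v' u' := by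
    rw [hv', hu', inner_sub_left, inner_sub_right, inner_sub_right, real_inner_smul_left,
      real_inner_smul_right, real_inner_smul_left, real_inner_smul_right, ax_inner,
      real_inner_comm u ax]
    ring
  have h1 := real_inner_le_norm v' u'
  rw [hv', hu', rem_norm v hv, rem_norm u hu, ← hv', ← hu'] at h1
  rw [cos_sub, cos_th v hv, cos_th u hu, e1]
  linarith

/-- the unit vector orthogonal to the axis -/
theorem exists_f (v : E4) (hv : ‖v‖ = 1) : ∃ f : E4, ‖f‖ = 1 ∧ inner ℝ f ax = (0 : ℝ) ∧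
    v = cos (arccos (inner ℝ v ax)) • ax + sin (arccos (inner ℝ v ax)) • f := by
  set s := sin (arccos (inner ℝ v ax)) with hs
  have hs0 : 0 ≤ s := sin_nonneg_of_nonneg_of_le_pi (arccos_nonneg _) (arccos_le_pi _)
  rcases hs0.eq_or_lt with h0 | h0
  · refine ⟨EuclideanSpace.single 1 1, by simp, ?_, ?_⟩
    · unfold ax
      simp [EuclideanSpace.inner_single_left]
    · have h1 := rem_norm v hv
      rw [← hs, ← h0, norm_eq_zero, sub_eq_zero] at h1
      rw [← h0, zero_smul, add_zero, cos_th v hv]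
      exact h1
  · refine ⟨s⁻¹ • (v - (inner ℝ v ax : ℝ) • ax), ?_, ?_, ?_⟩
    · rw [norm_smul, rem_norm v hv, ← hs, Real.norm_of_nonneg (by positivity)]
      exact inv_mul_cancel₀ h0.ne'
    · rw [real_inner_smul_left, rem_orth, mul_zero]
    · rw [smul_smul, mul_inv_cancel₀ h0.ne', one_smul, cos_th v hv]
      abel

theorem t (h1 : S_L1) : IB408.S_RAD := by
  intro h hP v hv r hr
  obtain ⟨hc, he, hp, hb, -⟩ := hP
  have hb' : ∀ ψ, |h ψ - 1| ≤ 1 / 10 := fun ψ => (hb ψ).trans (by norm_num)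
  obtain ⟨L1, L2, -, L4, -⟩ := h1 h hc hb'
  set θ := arccos (inner ℝ v ax) with hθ
  constructor
  · intro hK
    obtain ⟨d, hd, hL⟩ := L1 θ
    obtain ⟨f, hf1, hf2, hf3⟩ := exists_f v hv
    rw [← hθ] at hf3
    have hcd : 0 < cos d := cos_pos_of_mem_Ioo ⟨by
      have := Real.pi_gt_three
      linarith [hd.1], by
      have := Real.pi_gt_three
      linarith [hd.2]⟩
    rw [hL, le_div_iff₀ hcd]
    set u : E4 := cos (θ + d) • ax + sin (θ + d) • f with hu
    have hfa : inner ℝ ax f = (0 : ℝ) := by rw [real_inner_comm]; exact hf2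
    have hff : inner ℝ f f = (1 : ℝ) := by
      rw [real_inner_self_eq_norm_sq, hf1]
      norm_num
    have hu1 : ‖u‖ = 1 := by
      have h2 : ‖u‖ ^ 2 = 1 := by
        rw [← real_inner_self_eq_norm_sq, hu]
        simp only [inner_add_left, inner_add_right, real_inner_smul_left, real_inner_smul_right,
          ax_inner, hfa, hf2, hff]
        have := Real.sin_sq_add_cos_sq (θ + d)
        nlinarith
      nlinarith [norm_nonneg u]
    have h3 := hK u hu1
    have h4 : (inner ℝ u ax : ℝ) = cos (θ + d) := by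
      rw [hu]
      simp only [inner_add_left, real_inner_smul_left, ax_inner, hf2]
      ring
    have h5 : (inner ℝ (r • v) u : ℝ) = r * cos d := by
      rw [real_inner_smul_left]
      congr 1
      rw [hf3, hu]
      simp only [inner_add_left, inner_add_right, real_inner_smul_left, real_inner_smul_right,
        ax_inner, hfa, hf2, hff]
      have h6 : cos d = cos ((θ + d) - θ) := by congr 1; ring
      rw [h6, cos_sub]
      ring
    rw [h4, h5, h_arccos_cos h he hp] at h3
    exact h3
  · intro hrL u hu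
    set ψ := arccos (inner ℝ u ax) with hψ
    have h3 := inner_le v u hv hu
    rw [← hθ, ← hψ] at h3
    rw [real_inner_smul_left]
    have h4 : r * inner ℝ v u ≤ r * cos (θ - ψ) := mul_le_mul_of_nonneg_left h3 hr
    rcases le_or_gt |θ - ψ| 1 with h5 | h5
    · obtain ⟨h6, h7⟩ := abs_le.mp h5
      have hd : ψ - θ ∈ Icc (-1 : ℝ) 1 := ⟨by linarith, by linarith⟩
      have hcd : 0 < cos (ψ - θ) := cos_pos_of_mem_Ioo ⟨by
        have := Real.pi_gt_three
        linarith [hd.1], by
        have := Real.pi_gt_three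
        linarith [hd.2]⟩
      have h8 := L2 θ (ψ - θ) hd
      rw [show θ + (ψ - θ) = ψ by ring, le_div_iff₀ hcd] at h8
      have h9 : cos (θ - ψ) = cos (ψ - θ) := by
        rw [← cos_neg]
        congr 1
        ring
      rw [h9] at h4
      have h10 : r * cos (ψ - θ) ≤ Leg h θ * cos (ψ - θ) :=
        mul_le_mul_of_nonneg_right hrL hcd.le
      linarith
    · have hle : |θ - ψ| ≤ π := by
        have a1 := arccos_nonneg (inner ℝ v ax)
        have a2 := arccos_le_pi (inner ℝ v ax)
        have a3 := arccos_nonneg (inner ℝ u ax)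
        have a4 := arccos_le_pi (inner ℝ u ax)
        rw [abs_le]
        constructor <;> linarith
      have h6 : cos (θ - ψ) ≤ cos 1 := by
        rw [← cos_abs (θ - ψ)]
        exact cos_le_cos_of_nonneg_of_le_pi zero_le_one hle h5.le
      have h7 : cos 1 ≤ 2 / 3 := by
        have := Real.cos_one_le
        linarith
      have h8 := (abs_le.mp (L4 (1 / 100) (by norm_num) hb θ)).2
      have h9 := (abs_le.mp (hb ψ)).1
      nlinarith

end N692.IB.RAD
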